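import Pool.Agent.Helper237.Bump

namespace Pool.Agent.Results.MP_701b78_al.LeastIsTwo

open Set Filter Topology
open Pool.Agent.Helper237 (G RA LA)

/-- The function f is locally affine at x: it agrees with t ↦ a * t + b in a neighbourhood
of x, for some constants a and b. -/
def LocallyAffineAt (f : ℝ → ℝ) (x : ℝ) : Prop :=
  ∃ a b : ℝ, ∀ᶠ t in 𝓝 x, f t = a * t + b

/-- The set of points where f fails to be locally affine has no accumulation point in ℝ. -/
def PiecewiseAffine (f : ℝ → ℝ) : Prop :=
  ∀ x : ℝ, ¬ AccPt x (𝓟 {y : ℝ | ¬ LocallyAffineAt f y})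

theorem LocallyAffineAt.ball {f : ℝ → ℝ} {x : ℝ} (h : LocallyAffineAt f x) :
    ∃ a b e : ℝ, 0 < e ∧ ∀ t, x - e ≤ t → t ≤ x + e → f t = a * t + b := by
  obtain ⟨a, b, h⟩ := h
  rw [Metric.eventually_nhds_iff] at h
  obtain ⟨e, he, H⟩ := h
  refine ⟨a, b, e / 2, by linarith, fun t h1 h2 => H ?_⟩
  rw [Real.dist_eq, abs_lt]
  constructor <;> linarith

theorem locallyAffineAt_of_ioo {f : ℝ → ℝ} {x u v a b : ℝ} (hu : u < x) (hv : x < v)
    (h : ∀ t, u < t → t < v → f t = a * t + b) : LocallyAffineAt f x := by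
  refine ⟨a, b, ?_⟩
  filter_upwards [Ioo_mem_nhds hu hv] with t ht
  exact h t ht.1 ht.2

theorem two_points {a b a' b' s t : ℝ} (hst : s ≠ t) (h1 : a * s + b = a' * s + b')
    (h2 : a * t + b = a' * t + b') : a = a' ∧ b = b' := by
  have h3 : (a - a') * (s - t) = 0 := by linarith
  have h4 : a = a' := by
    rcases mul_eq_zero.1 h3 with h | h
    · linarith
    · exact absurd (by linarith) hst
  subst h4
  exact ⟨rfl, by linarith⟩

/-- locally affine on an open interval implies affine on compact subintervals -/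
theorem affine_of_local {f : ℝ → ℝ} {u v : ℝ} (h : ∀ y, u < y → y < v → LocallyAffineAt f y)
    {s t : ℝ} (hus : u < s) (hst : s < t) (htv : t < v) :
    ∃ a b : ℝ, ∀ r, s ≤ r → r ≤ t → f r = a * r + b := by
  have key : (∃ a b : ℝ, ∀ r, s ≤ r → r ≤ s → f r = a * r + b) →
      (∃ a b : ℝ, ∀ r, s ≤ r → r ≤ t → f r = a * r + b) := by
    refine Pool.Agent.Helper237.chain Set.univ isClosed_univ
      (fun x y => ((∃ a b : ℝ, ∀ r, s ≤ r → r ≤ x → f r = a * r + b) →
      (∃ a b : ℝ, ∀ r, s ≤ r → r ≤ y → f r = a * r + b)))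
      (fun x y z h1 h2 h => h2 (h1 h)) s t hst (Set.mem_univ _) ?_ ?_
    · intro x _ hsx hxt
      obtain ⟨a, b, e, he, H⟩ := (h x (by linarith) (by linarith)).ball
      refine ⟨min (x + e) t, Set.mem_univ _, lt_min (by linarith) hxt, min_le_right _ _, ?_⟩
      rintro ⟨a', b', H'⟩
      have hm : min (x + e) t ≤ x + e := min_le_left _ _
      rcases hsx.eq_or_lt with rfl | hsx
      · exact ⟨a, b, fun r h1 h2 => H r (by linarith) (by linarith)⟩
      · have hl : max s (x - e) < x := max_lt hsx (by linarith)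
        have e1 := H (max s (x - e)) (le_max_right _ _) (by linarith)
        rw [H' _ (le_max_left _ _) hl.le] at e1
        have e2 := H x (by linarith) (by linarith)
        rw [H' x hsx.le le_rfl] at e2
        obtain ⟨rfl, rfl⟩ := two_points hl.ne e1 e2
        refine ⟨a', b', fun r h1 h2 => ?_⟩
        rcases le_total r x with h3 | h3
        · exact H' r h1 h3
        · exact H r (by linarith) (by linarith)
    · intro z _ hsz hzt
      obtain ⟨a, b, e, he, H⟩ := (h z (by linarith) (by linarith)).ball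
      refine ⟨e, he, fun y _ hsy hzy hyz => ?_⟩
      rintro ⟨a', b', H'⟩
      have hl : max s (z - e) < y := max_lt hsy (by linarith)
      have e1 := H (max s (z - e)) (le_max_right _ _) (by linarith)
      rw [H' _ (le_max_left _ _) hl.le] at e1
      have e2 := H y (by linarith) (by linarith)
      rw [H' y hsy.le le_rfl] at e2
      obtain ⟨rfl, rfl⟩ := two_points hl.ne e1 e2
      refine ⟨a', b', fun r h1 h2 => ?_⟩
      rcases le_total r y with h3 | h3
      · exact H' r h1 h3
      · exact H r (by linarith) (by linarith)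
  refine key ⟨0, f s, fun r h1 h2 => ?_⟩
  rw [le_antisymm h2 h1]; ring

theorem ra_la_of_piecewiseAffine {f : ℝ → ℝ} (hf : Continuous f) (h : PiecewiseAffine f)
    (x : ℝ) : RA f x ∧ LA f x := by
  have hx := h x
  rw [accPt_iff_nhds] at hx
  push Not at hx
  obtain ⟨U, hU, hUx⟩ := hx
  obtain ⟨e, he, hball⟩ := Metric.mem_nhds_iff.1 hU
  have hloc : ∀ y, x - e < y → y < x + e → y ≠ x → LocallyAffineAt f y := by
    intro y h1 h2 h3
    by_contra hc
    refine h3 (hUx y ⟨hball ?_, hc⟩)
    rw [Metric.mem_ball, Real.dist_eq, abs_lt]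
    constructor <;> linarith
  constructor
  · obtain ⟨a, b, H⟩ := affine_of_local (u := x) (v := x + e) (s := x + e / 4) (t := x + e / 2)
      (fun y h1 h2 => hloc y (by linarith) h2 h1.ne') (by linarith) (by linarith) (by linarith)
    have H2 : ∀ r, x < r → r ≤ x + e / 2 → f r = a * r + b := by
      intro r h1 h2
      rcases le_total (x + e / 4) r with h3 | h3
      · exact H r h3 h2
      · obtain ⟨a', b', H'⟩ := affine_of_local (u := x) (v := x + e) (s := r) (t := x + e / 2)
          (fun y h1 h2 => hloc y (by linarith) h2 h1.ne') h1 (by linarith) (by linarith)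
        have e1 := H (x + e / 4) le_rfl (by linarith)
        rw [H' _ h3 (by linarith)] at e1
        have e2 := H (x + e / 2) (by linarith) le_rfl
        rw [H' _ h2 le_rfl] at e2
        obtain ⟨rfl, rfl⟩ := two_points (by intro h; linarith) e1 e2
        exact H' r le_rfl h2
    have Hx : f x = a * x + b := by
      have hcl : IsClosed {r : ℝ | f r = a * r + b} :=
        isClosed_eq hf (by fun_prop)
      have hsub : Ioc x (x + e / 2) ⊆ {r : ℝ | f r = a * r + b} := fun r hr => H2 r hr.1 hr.2
      have := closure_minimal hsub hcl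
      rw [closure_Ioc (by linarith)] at this
      exact this ⟨le_rfl, by linarith⟩
    refine ⟨a, e / 2, by linarith, fun t h1 h2 => ?_⟩
    rcases h1.eq_or_lt with rfl | h1
    · ring
    · rw [H2 t h1 h2, Hx]; ring
  · obtain ⟨a, b, H⟩ := affine_of_local (u := x - e) (v := x) (s := x - e / 2) (t := x - e / 4)
      (fun y h1 h2 => hloc y h1 (by linarith) h2.ne) (by linarith) (by linarith) (by linarith)
    have H2 : ∀ r, x - e / 2 ≤ r → r < x → f r = a * r + b := by
      intro r h1 h2
      rcases le_total r (x - e / 4) with h3 | h3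
      · exact H r h1 h3
      · obtain ⟨a', b', H'⟩ := affine_of_local (u := x - e) (v := x) (s := x - e / 2) (t := r)
          (fun y h1 h2 => hloc y h1 (by linarith) h2.ne) (by linarith) (by linarith) h2
        have e1 := H (x - e / 4) (by linarith) le_rfl
        rw [H' _ (by linarith) h3] at e1
        have e2 := H (x - e / 2) le_rfl (by linarith)
        rw [H' _ le_rfl h1] at e2
        obtain ⟨rfl, rfl⟩ := two_points (by intro h; linarith) e1 e2
        exact H' r h1 le_rfl
    have Hx : f x = a * x + b := by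
      have hcl : IsClosed {r : ℝ | f r = a * r + b} :=
        isClosed_eq hf (by fun_prop)
      have hsub : Ico (x - e / 2) x ⊆ {r : ℝ | f r = a * r + b} := fun r hr => H2 r hr.1 hr.2
      have := closure_minimal hsub hcl
      rw [closure_Ico (by linarith)] at this
      exact this ⟨by linarith, le_rfl⟩
    refine ⟨a, e / 2, by linarith, fun t h1 h2 => ?_⟩
    rcases h2.eq_or_lt with rfl | h2
    · ring
    · rw [H2 t h1 h2, Hx]; ring

theorem piecewiseAffine_of_ra_la {f : ℝ → ℝ} (h : ∀ x, RA f x ∧ LA f x) :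
    PiecewiseAffine f := by
  intro x
  rw [accPt_iff_nhds]
  push Not
  obtain ⟨⟨a, δ, hδ, H⟩, ⟨a', δ', hδ', H'⟩⟩ := h x
  refine ⟨Ioo (x - δ') (x + δ), Ioo_mem_nhds (by linarith) (by linarith), ?_⟩
  rintro y ⟨⟨h1, h2⟩, h3⟩
  by_contra hyx
  refine h3 ?_
  rcases lt_or_gt_of_ne hyx with h4 | h4
  · refine locallyAffineAt_of_ioo (u := x - δ') (v := x) (a := a') (b := f x - a' * x) h1 h4 ?_
    intro t h5 h6
    rw [H' t h5.le h6.le]; ring
  · refine locallyAffineAt_of_ioo (u := x) (v := x + δ) (a := a) (b := f x - a * x) h4 h2 ?_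
    intro t h5 h6
    rw [H t h5.le h6.le]; ring

/-- an increasing piecewise affine homeomorphism as an element of the working group -/
noncomputable def toG (f : ℝ ≃ₜ ℝ) (h1 : StrictMono f) (h2 : PiecewiseAffine f) : G :=
  G.mk' f h1 f.surjective (ra_la_of_piecewiseAffine f.continuous h2)

theorem pa_G (g : G) : PiecewiseAffine (fun x => g x) :=
  piecewiseAffine_of_ra_la g.pl

/-- The group of all increasing homeomorphisms of the real line that are locally affine at every
point outside a discrete set, under composition. -/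
def PLplus : Subgroup (ℝ ≃ₜ ℝ) where
  carrier := {f | StrictMono f ∧ PiecewiseAffine f}
  one_mem' := ⟨strictMono_id, pa_G 1⟩
  mul_mem' := by
    rintro f g ⟨hf, hf'⟩ ⟨hg, hg'⟩
    exact ⟨hf.comp hg, pa_G (toG f hf hf' * toG g hg hg')⟩
  inv_mem' := by
    rintro f ⟨hf, hf'⟩
    have e : ∀ x, (toG f hf hf')⁻¹ x = f⁻¹ x := by
      intro x
      rw [G.inv_eq_iff]
      exact (f.apply_symm_apply x).symm
    refine ⟨fun x y hxy => ?_, ?_⟩
    · have := (toG f hf hf')⁻¹.smono hxy
      rwa [e, e] at this
    · have := pa_G (toG f hf hf')⁻¹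
      simp only [e] at this
      exact this

/-- An element g of a group is reversible if it is conjugate in the group to its inverse. -/
def Reversible {H : Type*} [Group H] (g : H) : Prop := ∃ h : H, h * g * h⁻¹ = g⁻¹

/-- The set of all products of m reversible elements of the group H. -/
def ReversibleProducts (H : Type*) [Group H] (m : ℕ) : Set H :=
  {g | ∃ l : List H, l.length = m ∧ (∀ r ∈ l, Reversible r) ∧ l.prod = g}

/-- the natural map from the working group -/
noncomputable def ofG : G →* PLplus where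
  toFun g := ⟨g.e.toHomeomorph, g.smono, pa_G g⟩
  map_one' := rfl
  map_mul' _ _ := rfl

theorem ofG_surjective : Function.Surjective ofG := by
  rintro ⟨f, hf, hf'⟩
  refine ⟨toG f hf hf', ?_⟩
  apply Subtype.ext
  ext x
  rfl

theorem reversible_map {H K : Type*} [Group H] [Group K] (φ : H →* K) {g : H}
    (h : Reversible g) : Reversible (φ g) := by
  obtain ⟨k, hk⟩ := h
  exact ⟨φ k, by rw [← map_inv, ← map_mul, ← map_mul, hk, map_inv]⟩

theorem reversible_conj {H : Type*} [Group H] {g : H} (k : H)
    (h : Reversible g) : Reversible (k * g * k⁻¹) := by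
  have := reversible_map (MulAut.conj k).toMonoidHom h
  simpa [MulAut.conj_apply] using this

theorem reversible_inv {H : Type*} [Group H] {g : H}
    (h : Reversible g) : Reversible g⁻¹ := by
  obtain ⟨k, hk⟩ := h
  refine ⟨k, ?_⟩
  rw [inv_inv]
  have := congrArg (fun x => x⁻¹) hk
  simp only [mul_inv_rev, inv_inv] at this
  rw [mul_assoc]; exact this

/-- the main factorisation in the working group -/
theorem factor (f : G) : ∃ r s : G, Reversible r ∧ Reversible s ∧ r * s = f := by
  obtain ⟨Φ, W, h⟩ := G.main_of_bump G.bump f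
  have hE : Reversible G.E := ⟨G.R, G.E_rev⟩
  refine ⟨(Φ⁻¹ * W⁻¹) * G.E * (Φ⁻¹ * W⁻¹)⁻¹, Φ⁻¹ * G.E⁻¹ * (Φ⁻¹)⁻¹, reversible_conj _ hE,
    reversible_conj _ (reversible_inv hE), ?_⟩
  have : f = Φ⁻¹ * (Φ * f) := by group
  rw [this, h]
  unfold G.cm
  group

/-- the unit translation -/
noncomputable def shift : PLplus := ofG (G.tr 1)

theorem shift_apply (x : ℝ) : (shift : ℝ ≃ₜ ℝ) x = x + 1 := G.tr_apply 1 x

theorem not_reversible_shift : ¬ Reversible shift := by
  rintro ⟨h, hh⟩
  have h1 : h * shift = shift⁻¹ * h := by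
    rw [← hh]; group
  have h2 : shift * (h * shift) = h := by rw [h1]; group
  have h3 := congrArg (fun u : PLplus => (u : ℝ ≃ₜ ℝ) 0) h2
  have h4 : (shift : ℝ ≃ₜ ℝ) ((h : ℝ ≃ₜ ℝ) ((shift : ℝ ≃ₜ ℝ) 0)) = (h : ℝ ≃ₜ ℝ) 0 := h3
  rw [shift_apply, shift_apply] at h4
  have h5 : (h : ℝ ≃ₜ ℝ) 0 < (h : ℝ ≃ₜ ℝ) (0 + 1) := h.2.1 (by norm_num)
  linarith

/-- The least m such that every element of the group of increasing piecewise affine
homeomorphisms of the line is a product of m reversible elements is equal to two. -/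
theorem result : IsLeast {m : ℕ | 1 ≤ m ∧ ReversibleProducts PLplus m = Set.univ} 2 := by
  constructor
  · refine ⟨by norm_num, ?_⟩
    rw [Set.eq_univ_iff_forall]
    intro f
    obtain ⟨g, rfl⟩ := ofG_surjective f
    obtain ⟨r, s, hr, hs, rfl⟩ := factor g
    refine ⟨[ofG r, ofG s], rfl, ?_, ?_⟩
    · intro x hx
      simp only [List.mem_cons, List.not_mem_nil, or_false] at hx
      rcases hx with rfl | rfl
      · exact reversible_map ofG hr
      · exact reversible_map ofG hs
    · rw [map_mul]; simp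
  · rintro m ⟨h1, h2⟩
    by_contra hlt
    push Not at hlt
    have hm : m = 1 := by lia
    subst hm
    have : shift ∈ ReversibleProducts PLplus 1 := by rw [h2]; exact Set.mem_univ _
    obtain ⟨l, hl, hr, hp⟩ := this
    rw [List.length_eq_one_iff] at hl
    obtain ⟨a, rfl⟩ := hl
    have ha := hr a (by simp)
    simp only [List.prod_cons, List.prod_nil, mul_one] at hp
    rw [hp] at ha
    exact not_reversible_shift ha

end Pool.Agent.Results.MP_701b78_al.LeastIsTwo
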